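import Pool.Agent.Helper4.HZ.Goals

/-! Packet CHF (helper4, project HZ): structure of a chief factor of a finite group. -/

namespace Pool.Agent.Helper50.HZ

open Pool.Agent.Helper4.HZ Subgroup

section

variable {G : Type} [Group G] [Finite G] {K : Subgroup G} [hK : K.Normal]

/-- the conjugate of `R` -/
def Nc (R : Subgroup K) (g : G) : Subgroup K := R.comap (MulAut.conjNormal g : MulAut K).toMonoidHom

theorem mem_Nc (R : Subgroup K) (g : G) (x : K) :
    x ∈ Nc R g ↔ (MulAut.conjNormal g : MulAut K) x ∈ R := Iff.rfl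

instance (R : Subgroup K) [R.Normal] (g : G) : (Nc R g).Normal := by
  unfold Nc; infer_instance

theorem Nc_index (R : Subgroup K) (g : G) : (Nc R g).index = R.index :=
  index_comap_of_surjective R (MulAut.conjNormal g : MulAut K).surjective

theorem conj_mul (g h : G) (x : K) :
    (MulAut.conjNormal (g * h) : MulAut K) x =
      (MulAut.conjNormal g : MulAut K) ((MulAut.conjNormal h : MulAut K) x) := by
  rw [map_mul]; rfl

theorem conj_inv_self (g : G) (x : K) :
    (MulAut.conjNormal g : MulAut K) ((MulAut.conjNormal g⁻¹ : MulAut K) x) = x := by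
  rw [← conj_mul, mul_inv_cancel, map_one]; rfl

theorem conj_self_inv (g : G) (x : K) :
    (MulAut.conjNormal g⁻¹ : MulAut K) ((MulAut.conjNormal g : MulAut K) x) = x := by
  rw [← conj_mul, inv_mul_cancel, map_one]; rfl

theorem main (L : Subgroup G) (hc : IsChief K L) :
    ∃ (R : Subgroup K) (_ : R.Normal), L.subgroupOf K ≤ R ∧ IsSimpleGroup (K ⧸ R) ∧
      (∀ x : K, (∀ g : G, (MulAut.conjNormal g : MulAut K) x ∈ R) → (x : G) ∈ L) ∧
      ∃ k : ℕ, 1 ≤ k ∧ L.relIndex K = Nat.card (K ⧸ R) ^ k ∧ (k = 1 → R = L.subgroupOf K) := by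
  classical
  have hL := hc.nL
  set L' : Subgroup K := L.subgroupOf K with hL'
  have hL'n : L'.Normal := inferInstance
  have hL't : L' ≠ ⊤ := by
    intro h
    rw [hL', subgroupOf_eq_top] at h
    exact hc.lt.not_ge h
  obtain ⟨R, -, hR⟩ := Finite.exists_le_maximal (p := fun R : Subgroup K ↦ R.Normal ∧ L' ≤ R ∧ R ≠ ⊤)
    ⟨hL'n, le_rfl, hL't⟩
  obtain ⟨hRn, hLR, hRt⟩ := hR.prop
  have hmax : ∀ M : Subgroup K, M.Normal → R ≤ M → M ≠ ⊤ → M = R := by
    intro M hM hRM hMt
    exact le_antisymm (hR.le_of_ge ⟨hM, hLR.trans hRM, hMt⟩ hRM) hRM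
  have hmaxg : ∀ (g : G) (M : Subgroup K), M.Normal → Nc R g ≤ M → M ≠ ⊤ → M = Nc R g := by
    intro g M hM hRM hMt
    have h1 : Nc M g⁻¹ = R := by
      refine hmax _ inferInstance ?_ ?_
      · intro r hr
        rw [mem_Nc]
        refine hRM ?_
        rw [mem_Nc, conj_inv_self]
        exact hr
      · intro h
        apply hMt
        rw [eq_top_iff]
        intro x _
        have : (MulAut.conjNormal g : MulAut K) x ∈ Nc M g⁻¹ := by rw [h]; trivial
        rw [mem_Nc, conj_self_inv] at this
        exact this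
    refine le_antisymm ?_ hRM
    intro x hx
    rw [mem_Nc, ← h1, mem_Nc, conj_self_inv]
    exact hx
  have hsimple : IsSimpleGroup (K ⧸ R) := by
    have hnt : Nontrivial (K ⧸ R) := QuotientGroup.nontrivial_iff.2 hRt
    refine ⟨fun H hH ↦ ?_⟩
    have hcn : (H.comap (QuotientGroup.mk' R)).Normal := inferInstance
    have hle : R ≤ H.comap (QuotientGroup.mk' R) := by
      intro r hr
      have : QuotientGroup.mk' R r = 1 := (QuotientGroup.eq_one_iff r).2 hr
      rw [mem_comap, this]; exact H.one_mem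
    have hback : (H.comap (QuotientGroup.mk' R)).map (QuotientGroup.mk' R) = H :=
      map_comap_eq_self_of_surjective (QuotientGroup.mk'_surjective R) H
    by_cases ht : H.comap (QuotientGroup.mk' R) = ⊤
    · right
      rw [← hback, ht]
      exact map_top_of_surjective _ (QuotientGroup.mk'_surjective R)
    · left
      have := hmax _ hcn hle ht
      rw [← hback, this, eq_bot_iff]
      rintro _ ⟨r, hr, rfl⟩
      exact (QuotientGroup.eq_one_iff r).2 hr
  have hLg : ∀ (g : G) (x : K), (x : G) ∈ L → (((MulAut.conjNormal g : MulAut K) x : K) : G) ∈ L := by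
    intro g x hx
    rw [MulAut.conjNormal_apply]
    exact hL.conj_mem _ hx g
  -- the intersection
  have hI : ∀ x : K, (∀ g : G, (MulAut.conjNormal g : MulAut K) x ∈ R) → (x : G) ∈ L := by
    let I : Subgroup K := ⨅ g : G, Nc R g
    have memI : ∀ x : K, x ∈ I ↔ ∀ g : G, (MulAut.conjNormal g : MulAut K) x ∈ R := by
      intro x
      simp only [I, mem_iInf, mem_Nc]
    have hMn : (I.map K.subtype).Normal := by
      refine ⟨?_⟩
      rintro _ ⟨x, hx, rfl⟩ h
      refine ⟨(MulAut.conjNormal h : MulAut K) x, ?_, by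
        simp [MulAut.conjNormal_apply]⟩
      have hx' := (memI x).1 hx
      refine (memI _).2 fun g ↦ ?_
      rw [← conj_mul]
      exact hx' _
    have hLM : L ≤ I.map K.subtype := by
      intro x hx
      refine ⟨⟨x, hc.lt.le hx⟩, ?_, rfl⟩
      refine (memI _).2 fun g ↦ hLR ?_
      rw [hL', mem_subgroupOf]
      exact hLg g _ hx
    have hMK : I.map K.subtype ≤ K := map_subtype_le I
    intro x hx
    rcases hc.max _ hMn hLM hMK with h | h
    · rw [← h]
      exact ⟨x, (memI x).2 hx, rfl⟩
    · exfalso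
      apply hRt
      rw [eq_top_iff]
      intro y _
      have : (y : G) ∈ I.map K.subtype := by rw [h]; exact y.2
      obtain ⟨y', hy', he⟩ := this
      have hyy : y' = y := Subtype.ext he
      have := (memI y).1 (hyy ▸ hy') 1
      rwa [map_one] at this
  -- the index
  have hidx : ∀ S : Finset G, (S.inf (Nc R)).Normal ∧ ∃ k : ℕ, (S.inf (Nc R)).index = R.index ^ k := by
    intro S
    induction S using Finset.induction_on with
    | empty =>
      rw [Finset.inf_empty]
      exact ⟨inferInstance, 0, by simp⟩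
    | insert g S _ ih =>
      obtain ⟨hn, k, hk⟩ := ih
      rw [Finset.inf_insert]
      refine ⟨inferInstance, ?_⟩
      have h1 : (Nc R g ⊓ S.inf (Nc R)).relIndex (S.inf (Nc R)) * (S.inf (Nc R)).index =
          (Nc R g ⊓ S.inf (Nc R)).index := relIndex_mul_index inf_le_right
      rw [← h1, inf_relIndex_right, hk, ← relIndex_sup_right]
      by_cases ht : S.inf (Nc R) ⊔ Nc R g = ⊤
      · refine ⟨k + 1, ?_⟩
        rw [ht, relIndex_top_right, Nc_index, pow_succ, mul_comm]
      · refine ⟨k, ?_⟩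
        have := hmaxg g _ inferInstance (le_sup_right : Nc R g ≤ S.inf (Nc R) ⊔ Nc R g) ht
        rw [this, relIndex_self, one_mul]
  obtain ⟨-, k, hk⟩ := hidx (@Finset.univ G (Fintype.ofFinite G))
  have hinf : (@Finset.univ G (Fintype.ofFinite G)).inf (Nc R) = L' := by
    apply le_antisymm
    · intro x hx
      rw [hL', mem_subgroupOf]
      refine hI x fun g ↦ ?_
      have : (@Finset.univ G (Fintype.ofFinite G)).inf (Nc R) ≤ Nc R g :=
        Finset.inf_le (@Finset.mem_univ G (Fintype.ofFinite G) g)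
      exact this hx
    · refine Finset.le_inf fun g _ x hx ↦ ?_
      rw [mem_Nc]
      refine hLR ?_
      rw [hL', mem_subgroupOf] at hx ⊢
      exact hLg g x hx
  rw [hinf] at hk
  refine ⟨R, hRn, hLR, hsimple, hI, k, ?_, ?_, ?_⟩
  · rcases Nat.eq_zero_or_pos k with h0 | h0
    · exfalso
      rw [h0, pow_zero, index_eq_one] at hk
      exact hL't hk
    · exact h0
  · show L'.index = _
    rw [hk, index_eq_card]
  · intro h1
    rw [h1, pow_one] at hk
    have h2 := relIndex_mul_index hLR
    rw [hk] at h2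
    have h3 : L'.relIndex R = 1 := by
      have hpos : 0 < R.index := Nat.pos_of_ne_zero index_ne_zero_of_finite
      exact Nat.eq_of_mul_eq_mul_right hpos (by rw [h2, one_mul])
    exact le_antisymm (relIndex_eq_one.1 h3) hLR

end

/-- CHF -/
theorem CHF_holds : S_CHF := by
  intro G _ _ K L hc
  have hK := hc.nK
  obtain ⟨R, hRn, hLR, hs, hI, k, hk1, hk, hk2⟩ := main L hc
  by_cases hcomm : ∃ a b : K ⧸ R, a * b ≠ b * a
  · right
    exact ⟨R, hRn, k, hLR, ⟨hs, hcomm⟩, hk1, hk, hk2⟩
  · left
    push Not at hcomm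
    have hp : (Nat.card (K ⧸ R)).Prime := by
      let _ : CommGroup (K ⧸ R) := { (inferInstance : Group (K ⧸ R)) with mul_comm := hcomm }
      exact IsSimpleGroup.prime_card
    refine ⟨Nat.card (K ⧸ R), k, hp, hk1, hk, ?_, ?_⟩
    · intro a ha
      have := hI (⟨a, ha⟩ ^ Nat.card (K ⧸ R)) ?_
      · simpa using this
      · intro g
        rw [map_pow, ← QuotientGroup.eq_one_iff, QuotientGroup.mk_pow]
        exact pow_card_eq_one'
    · intro a ha b hb
      have := hI (⟨a, ha⟩ * ⟨b, hb⟩ * ⟨a, ha⟩⁻¹ * ⟨b, hb⟩⁻¹) ?_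
      · simpa using this
      · intro g
        rw [map_mul, map_mul, map_mul, map_inv, map_inv, ← QuotientGroup.eq_one_iff,
          QuotientGroup.mk_mul, QuotientGroup.mk_mul, QuotientGroup.mk_mul, hcomm (QuotientGroup.mk _) (QuotientGroup.mk _)]
        simp

end Pool.Agent.Helper50.HZ
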